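import Pool.Agent.GLE.StmtsA

/-!
# Squad GLE, row DIV: integer power sums and the divisibility of the first nonzero difference
-/

noncomputable section

namespace Pool.Agent.GLE.H95

open Polynomial MeasureTheory

/-- `X U' = - U S` and `U = 1 + ...` -/
def LD {R : Type} [CommRing R] (U S : PowerSeries R) : Prop :=
  PowerSeries.constantCoeff U = 1 ∧ PowerSeries.X * PowerSeries.derivative R U = -(U * S)

theorem LD.one {R : Type} [CommRing R] : LD (1 : PowerSeries R) 0 := by
  refine ⟨map_one _, ?_⟩
  rw [PowerSeries.derivative_one, mul_zero, mul_zero, neg_zero]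

theorem LD.mul {R : Type} [CommRing R] {U S V T : PowerSeries R} (hU : LD U S) (hV : LD V T) :
    LD (U * V) (S + T) := by
  refine ⟨by rw [map_mul, hU.1, hV.1, mul_one], ?_⟩
  rw [Derivation.leibniz, smul_eq_mul, smul_eq_mul]
  linear_combination U * hV.2 + V * hU.2

theorem LD.inv {R : Type} [CommRing R] {U S : PowerSeries R} (hU : LD U S) :
    ∃ V, U * V = 1 ∧ LD V (-S) := by
  have h1 : IsUnit U := by
    rw [PowerSeries.isUnit_iff_constantCoeff, hU.1]
    exact isUnit_one
  obtain ⟨V, hV⟩ := h1.exists_right_inv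
  refine ⟨V, hV, ?_, ?_⟩
  · have := congrArg PowerSeries.constantCoeff hV
    rwa [map_mul, hU.1, one_mul, map_one] at this
  · have h2 := congrArg (PowerSeries.derivative R) hV
    rw [Derivation.leibniz, smul_eq_mul, smul_eq_mul, PowerSeries.derivative_one] at h2
    have h3 : PowerSeries.X * PowerSeries.derivative R V =
        (U * V) * (PowerSeries.X * PowerSeries.derivative R V) := by rw [hV, one_mul]
    rw [h3]
    linear_combination V * PowerSeries.X * h2 - V * V * hU.2 + V * S * hV

theorem LD.npow {R : Type} [CommRing R] {U S : PowerSeries R} (hU : LD U S) (n : ℕ) :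
    ∃ V, LD V ((n : PowerSeries R) * S) := by
  induction n with
  | zero => exact ⟨1, by rw [Nat.cast_zero, zero_mul]; exact LD.one⟩
  | succ n ih =>
    obtain ⟨V, hV⟩ := ih
    refine ⟨V * U, ?_⟩
    have := hV.mul hU
    rwa [show ((n : PowerSeries R) * S) + S = ((n + 1 : ℕ) : PowerSeries R) * S by
      push_cast; ring] at this

theorem LD.zpow {R : Type} [CommRing R] {U S : PowerSeries R} (hU : LD U S) (n : ℤ) :
    ∃ V, LD V ((n : PowerSeries R) * S) := by
  obtain ⟨m, rfl | rfl⟩ := n.eq_nat_or_neg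
  · obtain ⟨V, hV⟩ := hU.npow m
    exact ⟨V, by rwa [Int.cast_natCast]⟩
  · obtain ⟨V, hV⟩ := hU.npow m
    obtain ⟨W, -, hW⟩ := hV.inv
    refine ⟨W, ?_⟩
    rwa [show ((-(m : ℤ) : ℤ) : PowerSeries R) * S = -((m : PowerSeries R) * S) by
      push_cast; ring]

theorem LD.sum {R : Type} [CommRing R] {ι : Type} (s : Finset ι) (S : ι → PowerSeries R)
    (h : ∀ i, ∃ U, LD U (S i)) : ∃ V, LD V (∑ i ∈ s, S i) := by
  classical
  induction s using Finset.induction_on with
  | empty => exact ⟨1, by rw [Finset.sum_empty]; exact LD.one⟩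
  | insert i s hi ih =>
    obtain ⟨V, hV⟩ := ih
    obtain ⟨U, hU⟩ := h i
    exact ⟨U * V, by rw [Finset.sum_insert hi]; exact hU.mul hV⟩

theorem LD.uniq {R : Type} [CommRing R] {U S T : PowerSeries R} (h : LD U S) (h' : LD U T) :
    S = T := by
  obtain ⟨V, hV, -⟩ := h.inv
  have h1 : U * S = U * T := neg_injective (h.2.symm.trans h'.2)
  calc S = V * (U * S) := by rw [← mul_assoc, mul_comm V U, hV, one_mul]
    _ = V * (U * T) := by rw [h1]
    _ = T := by rw [← mul_assoc, mul_comm V U, hV, one_mul]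

theorem LD.zero_coeff {R : Type} [CommRing R] {U S : PowerSeries R} (h : LD U S) :
    PowerSeries.coeff 0 S = 0 := by
  have h1 := congrArg PowerSeries.constantCoeff h.2
  rw [map_mul, map_neg, map_mul, h.1, one_mul, PowerSeries.constantCoeff_X, zero_mul] at h1
  rw [PowerSeries.coeff_zero_eq_constantCoeff_apply]
  exact neg_eq_zero.1 h1.symm

theorem LD.coeff {R : Type} [CommRing R] {U S : PowerSeries R} (h : LD U S) {n : ℕ} (hn : 1 ≤ n)
    (h0 : ∀ k < n, PowerSeries.coeff k S = 0) :
    PowerSeries.coeff n S = (n : R) * (-PowerSeries.coeff n U) := by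
  obtain ⟨m, rfl⟩ : ∃ m, n = m + 1 := ⟨n - 1, by omega⟩
  have h1 := congrArg (PowerSeries.coeff (m + 1)) h.2
  rw [PowerSeries.coeff_succ_X_mul, PowerSeries.coeff_derivative, map_neg,
    PowerSeries.coeff_mul] at h1
  rw [Finset.sum_eq_single (0, m + 1)] at h1
  · rw [PowerSeries.coeff_zero_eq_constantCoeff_apply, h.1, one_mul] at h1
    push_cast
    have h2 : PowerSeries.coeff (m + 1) U * ((m : R) + 1) = -PowerSeries.coeff (m + 1) S := h1
    linear_combination h2
  · rintro ⟨i, j⟩ hij hne
    rw [Finset.HasAntidiagonal.mem_antidiagonal] at hij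
    simp only at hij
    by_cases hj : j < m + 1
    · simp only [h0 j hj, mul_zero]
    · exfalso
      apply hne
      ext <;> simp only <;> omega
  · intro h2
    exact absurd (Finset.HasAntidiagonal.mem_antidiagonal.2 (zero_add _)) h2

/-- the series of the power sums -/
def Sc (s : Multiset ℂ) : PowerSeries ℂ :=
  PowerSeries.mk fun k => if k = 0 then 0 else (s.map fun z => z ^ k).sum

theorem ld_single (z : ℂ) :
    LD (1 - PowerSeries.C z * PowerSeries.X) (Sc {z}) := by
  refine ⟨?_, ?_⟩
  · rw [map_sub, map_one, map_mul, PowerSeries.constantCoeff_X, mul_zero, sub_zero]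
  · rw [map_sub, PowerSeries.derivative_one, Derivation.leibniz, PowerSeries.derivative_X,
      PowerSeries.derivative_C, smul_zero, add_zero, smul_eq_mul, mul_one, zero_sub]
    ext n
    rw [sub_mul, one_mul, mul_assoc]
    rcases n with _ | n
    · rw [map_neg, map_sub]
      simp [Sc]
    · rw [PowerSeries.coeff_succ_X_mul, map_neg, map_neg, map_sub, PowerSeries.coeff_C_mul,
        PowerSeries.coeff_succ_X_mul]
      simp only [Sc, PowerSeries.coeff_mk, Multiset.map_singleton, Multiset.sum_singleton,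
        Nat.succ_ne_zero, if_false, PowerSeries.coeff_C]
      rcases n with _ | n
      · simp
      · simp [pow_succ]
        ring

theorem Sc_cons (z : ℂ) (s : Multiset ℂ) : Sc (z ::ₘ s) = Sc {z} + Sc s := by
  ext n
  simp only [Sc, map_add, PowerSeries.coeff_mk, Multiset.map_cons, Multiset.sum_cons,
    Multiset.map_singleton, Multiset.sum_singleton]
  split_ifs
  · simp
  · rfl

theorem reverse_X_sub_C' (z : ℂ) : (X - C z : ℂ[X]).reverse = 1 - C z * X := by
  ext n
  rw [coeff_reverse, natDegree_X_sub_C]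
  rcases n with _ | _ | n
  · rw [revAt_le (by norm_num)]
    simp [coeff_one, coeff_X, coeff_C]
  · rw [revAt_le (by norm_num)]
    simp [coeff_one, coeff_X]
  · rw [revAt_eq_self_of_lt (by omega)]
    simp [coeff_one, coeff_X, coeff_C]

theorem ld_prod (s : Multiset ℂ) :
    LD (((s.map fun z => (X - C z : ℂ[X])).prod.reverse : ℂ[X]) : PowerSeries ℂ) (Sc s) := by
  induction s using Multiset.induction_on with
  | empty =>
    have h1 : Sc 0 = 0 := by
      ext n
      simp [Sc]
    rw [h1, Multiset.map_zero, Multiset.prod_zero, ← C_1, reverse_C, C_1, Polynomial.coe_one]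
    exact LD.one
  | cons z s ih =>
    rw [Multiset.map_cons, Multiset.prod_cons, reverse_mul_of_domain, Polynomial.coe_mul, Sc_cons]
    refine LD.mul ?_ ih
    rw [reverse_X_sub_C', Polynomial.coe_sub, Polynomial.coe_one, Polynomial.coe_mul,
      Polynomial.coe_C, Polynomial.coe_X]
    exact ld_single z

theorem LD.map {R S : Type} [CommRing R] [CommRing S] (f : R →+* S) {U V : PowerSeries R}
    (h : LD U V) : LD (PowerSeries.map f U) (PowerSeries.map f V) := by
  refine ⟨?_, ?_⟩
  · rw [← PowerSeries.coeff_zero_eq_constantCoeff_apply, PowerSeries.coeff_map,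
      PowerSeries.coeff_zero_eq_constantCoeff_apply, h.1, map_one]
  · have h1 : PowerSeries.derivative S (PowerSeries.map f U) =
        PowerSeries.map f (PowerSeries.derivative R U) := by
      ext n
      rw [PowerSeries.coeff_derivative, PowerSeries.coeff_map, PowerSeries.coeff_map,
        PowerSeries.coeff_derivative, map_mul, map_add, map_natCast, map_one]
    rw [h1, ← map_mul, ← map_neg, ← h.2, map_mul, PowerSeries.map_X]

/-- integer series of the power sums of a monic integer polynomial -/
theorem ld_int {g : ℤ[X]} (hg : g.Monic) : ∃ U S : PowerSeries ℤ, LD U S ∧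
    ∀ k, 1 ≤ k → psm g k = ((PowerSeries.coeff k S : ℤ) : ℂ) := by
  set U : PowerSeries ℤ := ((g.reverse : ℤ[X]) : PowerSeries ℤ) with hU
  have hc : PowerSeries.constantCoeff U = 1 := by
    rw [hU, ← PowerSeries.coeff_zero_eq_constantCoeff_apply, Polynomial.coeff_coe,
      coeff_zero_reverse, hg.leadingCoeff]
  have hu : IsUnit U := by
    rw [PowerSeries.isUnit_iff_constantCoeff, hc]
    exact isUnit_one
  obtain ⟨V, hV⟩ := hu.exists_right_inv
  have hLD : LD U (-(PowerSeries.X * PowerSeries.derivative ℤ U * V)) := by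
    refine ⟨hc, ?_⟩
    linear_combination (-(PowerSeries.X * PowerSeries.derivative ℤ U)) * hV
  refine ⟨U, _, hLD, fun k hk => ?_⟩
  have h1 := hLD.map (Int.castRingHom ℂ)
  have h2 : PowerSeries.map (Int.castRingHom ℂ) U =
      (((g.map (Int.castRingHom ℂ)).reverse : ℂ[X]) : PowerSeries ℂ) := by
    ext n
    rw [PowerSeries.coeff_map, hU, Polynomial.coeff_coe, Polynomial.coeff_coe, coeff_reverse,
      coeff_reverse, coeff_map, natDegree_map_eq_of_injective (RingHom.injective_int _)]
  have h3 : (g.map (Int.castRingHom ℂ)) =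
      ((g.map (Int.castRingHom ℂ)).roots.map fun z => (X - C z : ℂ[X])).prod :=
    (IsAlgClosed.splits _).eq_prod_roots_of_monic (hg.map _)
  have h4 := ld_prod (g.map (Int.castRingHom ℂ)).roots
  rw [← h3, ← h2] at h4
  have h5 := h1.uniq h4
  have h6 := congrArg (PowerSeries.coeff k) h5
  rw [PowerSeries.coeff_map] at h6
  rw [show (Int.castRingHom ℂ) (PowerSeries.coeff k
    (-(PowerSeries.X * PowerSeries.derivative ℤ U * V))) = ((PowerSeries.coeff k
    (-(PowerSeries.X * PowerSeries.derivative ℤ U * V)) : ℤ) : ℂ) from rfl] at h6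
  rw [h6]
  simp only [Sc, PowerSeries.coeff_mk, if_neg (show k ≠ 0 by omega)]
  rfl

/-- DIV: integer power sums and the divisibility of the first nonzero difference. -/
theorem div : DivStmt := by
  refine ⟨fun g hg k => ?_, fun r g hg δ n hn h0 => ?_⟩
  · obtain ⟨U, S, -, h⟩ := ld_int hg
    rcases Nat.eq_zero_or_pos k with rfl | hk
    · refine ⟨(g.map (Int.castRingHom ℂ)).roots.card, ?_⟩
      simp [psm]
    · exact ⟨_, h k hk⟩
  · choose U S hLD hS using fun i => ld_int (hg i)
    obtain ⟨V, hV⟩ := LD.sum Finset.univ (fun i => ((δ i : ℤ) : PowerSeries ℤ) * S i)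
      fun i => (hLD i).zpow (δ i)
    have hco : ∀ k, PowerSeries.coeff k (∑ i, ((δ i : ℤ) : PowerSeries ℤ) * S i) =
        ∑ i, δ i * PowerSeries.coeff k (S i) := by
      intro k
      rw [map_sum]
      refine Finset.sum_congr rfl fun i _ => ?_
      rw [← zsmul_eq_mul, map_zsmul, zsmul_eq_mul, Int.cast_id]
    have hcc : ∀ k, 1 ≤ k → ∑ i, (δ i : ℂ) * psm (g i) k =
        ((PowerSeries.coeff k (∑ i, ((δ i : ℤ) : PowerSeries ℤ) * S i) : ℤ) : ℂ) := by
      intro k hk
      rw [hco]
      push_cast
      exact Finset.sum_congr rfl fun i _ => by rw [hS i k hk]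
    refine ⟨-PowerSeries.coeff n V, ?_⟩
    rw [hcc n hn, hV.coeff hn fun k hk => ?_]
    · push_cast
      ring
    · rcases Nat.eq_zero_or_pos k with rfl | hk1
      · exact hV.zero_coeff
      · have h1 := h0 k hk
        rw [hcc k hk1] at h1
        exact_mod_cast h1

end Pool.Agent.GLE.H95
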